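import Mathlib

namespace Pool.Agent.Results.MP_132c94_pr.LogMoment

open MeasureTheory Filter Topology Asymptotics Finset
open scoped ENNReal

def prodM (ε : ℝ) (ω : ℕ → ℝ) : ℕ → Matrix (Fin 2) (Fin 2) ℝ
  | 0 => 1
  | n + 1 => !![1, ε; ε * ω n, ω n] * prodM ε ω n

def nrm (A : Matrix (Fin 2) (Fin 2) ℝ) : ℝ := ∑ i, ∑ j, |A i j|

def IsLyap (μ : Measure ℝ) (L : ℝ → ℝ) : Prop :=
  ∀ ε > 0, ∀ᵐ ω ∂Measure.infinitePi (fun _ : ℕ => μ),
    Tendsto (fun n : ℕ => Real.log (nrm (prodM ε ω n)) / n) atTop (𝓝 (L ε))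

def Arith (μ : Measure ℝ) : Prop := ∃ c > 0, ∀ᵐ z ∂μ, ∃ k : ℤ, c * Real.log z = k

noncomputable def x (ε : ℝ) (ω : ℕ → ℝ) : ℕ → ℝ
  | 0 => 1
  | n + 1 => ω n * (1 + x ε ω n) / (1 + ε ^ 2 * x ε ω n)

noncomputable def T (w : ℕ → ℝ) (n : ℕ) : ℝ := ∑ j ∈ range (n + 1), ∏ i ∈ Ico j n, w i

lemma T_succ (w : ℕ → ℝ) (n : ℕ) : T w (n + 1) = 1 + w n * T w n := by
  unfold T
  rw [sum_range_succ, Ico_self, prod_empty, add_comm, mul_sum]
  congr 1
  refine sum_congr rfl fun j hj => ?_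
  rw [prod_Ico_succ_top (by simpa [Nat.lt_succ_iff] using hj), mul_comm]

section det
variable {ε : ℝ} {ω : ℕ → ℝ} (hε : 0 < ε) (hω : ∀ i, 0 < ω i)
include hε hω

lemma x_pos (n : ℕ) : 0 < x ε ω n := by
  induction n with
  | zero => exact one_pos
  | succ n ih => have := hω n; unfold x; positivity

lemma ent (n : ℕ) : (∀ i j, 0 ≤ prodM ε ω n i j) ∧ 1 ≤ prodM ε ω n 0 0 ∧
    prodM ε ω n 0 0 + ε * prodM ε ω n 0 1 = ∏ k ∈ range n, (1 + ε ^ 2 * x ε ω k) ∧
    prodM ε ω n 1 0 + ε * prodM ε ω n 1 1 = ε * x ε ω n * ∏ k ∈ range n, (1 + ε ^ 2 * x ε ω k) := by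
  induction n with
  | zero => refine ⟨fun i j => by simp [prodM, Matrix.one_apply]; positivity, ?_, ?_, ?_⟩ <;> simp [prodM, x]
  | succ n ih =>
    obtain ⟨h0, h1, h2, h3⟩ := ih
    have a := h0 0 0; have b := h0 0 1; have c := h0 1 0; have d := h0 1 1
    have w := hω n
    have p := x_pos hε hω n
    refine ⟨fun i j => ?_, ?_, ?_, ?_⟩
    · fin_cases i <;> fin_cases j <;> simp [prodM, Matrix.mul_apply, Fin.sum_univ_two] <;> positivity
    · simp [prodM, Matrix.mul_apply, Fin.sum_univ_two]; nlinarith [mul_nonneg hε.le c]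
    · simp only [prodM, Matrix.mul_apply, Fin.sum_univ_two, prod_range_succ]
      simp
      linear_combination h2 + ε * h3
    · simp only [prodM, Matrix.mul_apply, Fin.sum_univ_two, prod_range_succ, x]
      simp
      field_simp
      linear_combination ε * h2 + h3

lemma xs {s : ℝ} (s0 : 0 < s) (s1 : s ≤ 1) (n : ℕ) :
    (1 + x ε ω n) ^ s ≤ 2 * T (fun i => ω i ^ s) n := by
  induction n with
  | zero =>
    simp only [x, T]
    simp
    calc (1 + 1 : ℝ) ^ s ≤ (1 + 1) ^ (1 : ℝ) := Real.rpow_le_rpow_of_exponent_le (by norm_num) s1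
      _ = 2 := by norm_num
  | succ n ih =>
    have w := hω n
    have p := x_pos hε hω n
    have q := x_pos hε hω (n + 1)
    have e : x ε ω (n + 1) ≤ ω n * (1 + x ε ω n) := by
      rw [x]
      exact div_le_self (by positivity) (by nlinarith [mul_pos (pow_pos hε 2) p])
    rw [T_succ]
    calc (1 + x ε ω (n + 1)) ^ s ≤ 1 ^ s + x ε ω (n + 1) ^ s :=
          Real.rpow_add_le_add_rpow zero_le_one q.le s0.le s1
      _ ≤ 1 + (ω n * (1 + x ε ω n)) ^ s := by
          rw [Real.one_rpow]; gcongr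
      _ = 1 + ω n ^ s * (1 + x ε ω n) ^ s := by rw [Real.mul_rpow w.le (by positivity)]
      _ ≤ 1 + ω n ^ s * (2 * T (fun i => ω i ^ s) n) := by gcongr
      _ ≤ _ := by nlinarith

omit hε hω in
lemma lg {s y : ℝ} (s0 : 0 < s) (s1 : s ≤ 1) (hy : 0 ≤ y) : Real.log (1 + y) ≤ y ^ s / s := by
  rw [le_div_iff₀' s0, ← Real.log_rpow (by positivity)]
  have := Real.rpow_add_le_add_rpow zero_le_one hy s0.le s1
  rw [Real.one_rpow] at this
  have := Real.log_le_sub_one_of_pos (show 0 < (1 + y) ^ s by positivity)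
  linarith

lemma bd (ε1 : ε ≤ 1) {s : ℝ} (s0 : 0 < s) (s1 : s ≤ 1) (n : ℕ) :
    0 ≤ Real.log (nrm (prodM ε ω n)) ∧ Real.log (nrm (prodM ε ω n)) ≤ Real.log (1 / ε) +
      2 / s * T (fun i => ω i ^ s) n + ∑ k ∈ range n, 2 * (ε ^ 2) ^ s / s * T (fun i => ω i ^ s) k := by
  obtain ⟨h0, h1, h2, h3⟩ := ent hε hω n
  have a := h0 0 0; have b := h0 0 1; have c := h0 1 0; have d := h0 1 1
  have p := x_pos hε hω
  have e : nrm (prodM ε ω n) = prodM ε ω n 0 0 + prodM ε ω n 0 1 + (prodM ε ω n 1 0 + prodM ε ω n 1 1) := by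
    simp only [nrm, Fin.sum_univ_two, abs_of_nonneg (h0 _ _)]
  have pp : ∀ k, 0 < 1 + ε ^ 2 * x ε ω k := fun k => by have := p k; positivity
  have key : ∀ {u : ℝ} (k : ℕ), 0 < u → Real.log (1 + u * x ε ω k) ≤ 2 * u ^ s / s * T (fun i => ω i ^ s) k := by
    intro u k hu
    have := p k
    refine (lg s0 s1 (by positivity)).trans ?_
    rw [Real.mul_rpow hu.le this.le]
    have : x ε ω k ^ s ≤ 2 * T (fun i => ω i ^ s) k :=
      le_trans (by gcongr; linarith) (xs hε hω s0 s1 k)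
    calc u ^ s * x ε ω k ^ s / s ≤ u ^ s * (2 * T (fun i => ω i ^ s) k) / s := by gcongr
      _ = _ := by ring
  refine ⟨Real.log_nonneg (by linarith), ?_⟩
  have P : 0 < ∏ k ∈ range n, (1 + ε ^ 2 * x ε ω k) := prod_pos fun k _ => pp k
  have le : nrm (prodM ε ω n) ≤ 1 / ε * (1 + 1 * x ε ω n) * ∏ k ∈ range n, (1 + ε ^ 2 * x ε ω k) := by
    rw [e, mul_assoc, one_div, ← div_eq_inv_mul, le_div_iff₀ hε]
    nlinarith [mul_nonneg a (sub_nonneg.2 ε1), mul_nonneg c (sub_nonneg.2 ε1),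
      mul_nonneg (mul_pos (p n) P).le (sub_nonneg.2 ε1)]
  refine (Real.log_le_log (by linarith) le).trans ?_
  have := p n
  rw [Real.log_mul (by positivity) P.ne', Real.log_mul (by positivity) (by positivity),
    Real.log_prod fun k _ => (pp k).ne']
  have k1 := key n one_pos
  rw [Real.one_rpow, mul_one] at k1
  gcongr with k
  exact key k (by positivity)

end det

lemma ET (μ : Measure ℝ) [IsProbabilityMeasure μ] {s r : ℝ} (r0 : 0 ≤ r) (r1 : r < 1)
    (h : ∫⁻ z, ENNReal.ofReal (|z| ^ s) ∂μ ≤ ENNReal.ofReal r) (n : ℕ) :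
    ∫⁻ ω, ENNReal.ofReal (T (fun i => |ω i| ^ s) n) ∂Measure.infinitePi (fun _ : ℕ => μ)
      ≤ ENNReal.ofReal (1 / (1 - r)) := by
  have e : ∀ ω : ℕ → ℝ, ENNReal.ofReal (T (fun i => |ω i| ^ s) n) =
      ∑ j ∈ range (n + 1), ∏ i ∈ Ico j n, ENNReal.ofReal (|ω i| ^ s) := by
    intro ω
    unfold T
    rw [ENNReal.ofReal_sum_of_nonneg fun j _ => prod_nonneg fun i _ => by positivity]
    exact sum_congr rfl fun j _ => ENNReal.ofReal_prod_of_nonneg fun i _ => by positivity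
  simp_rw [e]
  rw [lintegral_finsetSum _ fun j _ => by fun_prop]
  have f : ∀ j, ∫⁻ ω, ∏ i ∈ Ico j n, ENNReal.ofReal (|ω i| ^ s) ∂Measure.infinitePi (fun _ : ℕ => μ)
      ≤ ENNReal.ofReal (r ^ (n - j)) := by
    intro j
    have m : Measurable fun z : ℝ => ENNReal.ofReal (|z| ^ s) := by fun_prop
    rw [ProbabilityTheory.lintegral_prod_eq_prod_lintegral_of_indepFun _
      (fun (i : ℕ) (ω : ℕ → ℝ) => ENNReal.ofReal (|ω i| ^ s))
      (ProbabilityTheory.iIndepFun_infinitePi (X := fun _ z => ENNReal.ofReal (|z| ^ s)) fun _ => m)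
      fun i => by fun_prop]
    refine (prod_le_pow_card _ _ (ENNReal.ofReal r) fun i _ => ?_).trans_eq ?_
    · exact ((measurePreserving_eval_infinitePi (fun _ : ℕ => μ) i).lintegral_comp m).trans_le h
    · rw [Nat.card_Ico, ENNReal.ofReal_pow r0]
  refine (sum_le_sum fun j _ => f j).trans ?_
  rw [← ENNReal.ofReal_sum_of_nonneg fun j _ => by positivity]
  refine ENNReal.ofReal_le_ofReal ?_
  have := sum_range_reflect (fun j => r ^ j) (n + 1)
  simp only [Nat.add_sub_cancel] at this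
  rw [this, one_div, ← tsum_geometric_of_lt_one r0 r1]
  exact (summable_geometric_of_lt_one r0 r1).sum_le_tsum _ fun _ _ => by positivity

lemma up (μ : Measure ℝ) [IsProbabilityMeasure μ] (hp : ∀ᵐ z ∂μ, 0 < z) {L : ℝ → ℝ} (hL : IsLyap μ L)
    {ε s r : ℝ} (hε : 0 < ε) (ε1 : ε ≤ 1) (s0 : 0 < s) (s1 : s ≤ 1) (r0 : 0 ≤ r) (r1 : r < 1)
    (h : ∫⁻ z, ENNReal.ofReal (|z| ^ s) ∂μ ≤ ENNReal.ofReal r) :
    0 ≤ L ε ∧ L ε ≤ 2 * (ε ^ 2) ^ s / s / (1 - r) := by
  set P := Measure.infinitePi (fun _ : ℕ => μ)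
  have pos : ∀ᵐ ω ∂P, ∀ i, 0 < ω i := ae_all_iff.2 fun i =>
    (measurePreserving_eval_infinitePi (fun _ : ℕ => μ) i).quasiMeasurePreserving.ae hp
  have r2 : 0 < 1 - r := by linarith
  have l0 : 0 ≤ Real.log (1 / ε) := Real.log_nonneg (one_le_one_div hε ε1)
  constructor
  · obtain ⟨ω, h1, h2⟩ := (pos.and (hL ε hε)).exists
    exact ge_of_tendsto' h2 fun n => div_nonneg (bd hε h1 ε1 s0 s1 n).1 (by positivity)
  set c := 2 * (ε ^ 2) ^ s / s with hc
  have c0 : 0 ≤ c := by positivity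
  let F : ℕ → (ℕ → ℝ) → ℝ≥0∞ := fun n ω => ENNReal.ofReal (1 / n) * (ENNReal.ofReal (Real.log (1 / ε)) +
    ENNReal.ofReal (2 / s) * ENNReal.ofReal (T (fun i => |ω i| ^ s) n) +
    ∑ k ∈ range n, ENNReal.ofReal c * ENNReal.ofReal (T (fun i => |ω i| ^ s) k))
  have mT : ∀ n, Measurable fun ω : ℕ → ℝ => ENNReal.ofReal (T (fun i => |ω i| ^ s) n) := fun n => by
    unfold T; fun_prop
  have mF : ∀ n, Measurable (F n) := fun n => by
    exact ((measurable_const.add ((mT n).const_mul _)).add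
      (Finset.measurable_sum _ fun k _ => (mT k).const_mul _)).const_mul _
  have a1 : ∀ᵐ ω ∂P, ENNReal.ofReal (L ε) ≤ liminf (fun n => F n ω) atTop := by
    filter_upwards [pos, hL ε hε] with ω h1 h2
    rw [← ((ENNReal.continuous_ofReal.tendsto _).comp h2).liminf_eq]
    refine liminf_le_liminf (Eventually.of_forall fun n => ?_)
    have T0 : ∀ k, 0 ≤ T (fun i => ω i ^ s) k := fun k =>
      sum_nonneg fun j _ => prod_nonneg fun i _ => (Real.rpow_pos_of_pos (h1 i) s).le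
    simp only [F, abs_of_pos (h1 _), Function.comp]
    simp_rw [← ENNReal.ofReal_mul c0]
    have := T0 n
    rw [← ENNReal.ofReal_mul (by positivity), ← ENNReal.ofReal_add l0 (by positivity),
      ← ENNReal.ofReal_sum_of_nonneg fun k _ => mul_nonneg c0 (T0 k),
      ← ENNReal.ofReal_add (by positivity) (sum_nonneg fun k _ => mul_nonneg c0 (T0 k)),
      ← ENNReal.ofReal_mul (by positivity)]
    refine ENNReal.ofReal_le_ofReal ?_
    rw [one_div, ← div_eq_inv_mul]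
    gcongr
    exact (bd hε h1 ε1 s0 s1 n).2
  have a2 : ∀ n : ℕ, ∫⁻ ω, F n ω ∂P ≤ ENNReal.ofReal
      (1 / n * (Real.log (1 / ε) + 2 / s * (1 / (1 - r)) + n * (c * (1 / (1 - r))))) := by
    intro n
    have := mT n
    simp only [F]
    rw [lintegral_const_mul' _ _ ENNReal.ofReal_ne_top, lintegral_add_left (by fun_prop),
      lintegral_add_left (by fun_prop), lintegral_const, measure_univ, mul_one,
      lintegral_const_mul' _ _ ENNReal.ofReal_ne_top,
      lintegral_finsetSum _ fun k _ => (mT k).const_mul _,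
      ENNReal.ofReal_mul (by positivity), ENNReal.ofReal_add (by positivity) (by positivity),
      ENNReal.ofReal_add l0 (by positivity), ENNReal.ofReal_mul (by positivity)]
    gcongr
    · exact ET μ r0 r1 h n
    refine (sum_le_card_nsmul _ _ (ENNReal.ofReal (c * (1 / (1 - r)))) fun k _ => ?_).trans_eq ?_
    · rw [lintegral_const_mul' _ _ ENNReal.ofReal_ne_top, ENNReal.ofReal_mul c0]
      gcongr
      exact ET μ r0 r1 h k
    · rw [card_range, nsmul_eq_mul, ENNReal.ofReal_mul (Nat.cast_nonneg n), ENNReal.ofReal_natCast]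
  have a3 : Tendsto (fun n : ℕ => (1 / n * (Real.log (1 / ε) + 2 / s * (1 / (1 - r)) +
      n * (c * (1 / (1 - r)))) : ℝ)) atTop (𝓝 (c / (1 - r))) := by
    have := (tendsto_const_div_atTop_nhds_zero_nat
      (Real.log (1 / ε) + 2 / s * (1 / (1 - r)))).add_const (c / (1 - r))
    rw [zero_add] at this
    refine this.congr' ?_
    filter_upwards [eventually_gt_atTop 0] with n hn
    have : (0 : ℝ) < n := by exact_mod_cast hn
    field_simp
  rw [← ENNReal.ofReal_le_ofReal_iff (by positivity)]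
  calc ENNReal.ofReal (L ε) = ∫⁻ _, ENNReal.ofReal (L ε) ∂P := by simp
    _ ≤ ∫⁻ ω, liminf (fun n => F n ω) atTop ∂P := lintegral_mono_ae a1
    _ ≤ liminf (fun n => ∫⁻ ω, F n ω ∂P) atTop := lintegral_liminf_le mF
    _ ≤ _ := by
      rw [← ((ENNReal.continuous_ofReal.tendsto _).comp a3).liminf_eq]
      exact liminf_le_liminf (Eventually.of_forall a2)

noncomputable def z (k : ℕ) : ℝ := 3 ^ 2 ^ k

noncomputable def p (k : ℕ) : ℝ := 1 / (2 * z k - 1)

noncomputable def mu : Measure ℝ := Measure.sum fun k : ℕ => ENNReal.ofReal (1 / 2 / 2 ^ k) •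
  (ENNReal.ofReal (p k) • Measure.dirac (z k) + ENNReal.ofReal (1 - p k) • Measure.dirac (1 / 2))

lemma z3 (k : ℕ) : 3 ≤ z k := le_self_pow₀ (by norm_num) (by positivity)

lemma pp (k : ℕ) : 0 < p k ∧ p k < 1 ∧ p k * z k + (1 - p k) * (1 / 2) = 1 := by
  have := z3 k
  have h : 0 < 2 * z k - 1 := by linarith
  refine ⟨by unfold p; positivity, by unfold p; rw [div_lt_one h]; linarith, ?_⟩
  unfold p; field_simp; ring

lemma li {f : ℝ → ℝ} (mf : Measurable f) (f0 : ∀ y, 0 ≤ f y) :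
    ∫⁻ y, ENNReal.ofReal (f y) ∂mu =
      ∑' k : ℕ, ENNReal.ofReal (1 / 2 / 2 ^ k * (p k * f (z k) + (1 - p k) * f (1 / 2))) := by
  rw [mu, lintegral_sum_measure]
  refine tsum_congr fun k => ?_
  obtain ⟨a, b, -⟩ := pp k
  have b := sub_nonneg.2 b.le
  rw [lintegral_smul_measure, lintegral_add_measure, lintegral_smul_measure, lintegral_smul_measure,
    lintegral_dirac, lintegral_dirac, ENNReal.ofReal_mul (by positivity),
    ENNReal.ofReal_add (mul_nonneg a.le (f0 _)) (mul_nonneg b (f0 _)), ENNReal.ofReal_mul a.le,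
    ENNReal.ofReal_mul b]
  rfl

lemma geo : ∑' k : ℕ, ENNReal.ofReal (1 / 2 / 2 ^ k * 1) = 1 := by
  simp only [mul_one]
  rw [← ENNReal.ofReal_tsum_of_nonneg (fun _ => by positivity) (summable_geometric_two' 1),
    tsum_geometric_two', ENNReal.ofReal_one]

instance : IsProbabilityMeasure mu := ⟨by
  have := li (f := fun _ => 1) measurable_const fun _ => zero_le_one
  simp only [ENNReal.ofReal_one, lintegral_const, one_mul, mul_one, add_sub_cancel] at this
  rw [this, ← geo]; simp only [mul_one]⟩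

lemma aemu {q : ℝ → Prop} : (∀ᵐ y ∂mu, q y) ↔ q (1 / 2) ∧ ∀ k, q (z k) := by
  have e : ∀ k, ENNReal.ofReal (1 / 2 / 2 ^ k) ≠ 0 ∧ ENNReal.ofReal (p k) ≠ 0 ∧
      ENNReal.ofReal (1 - p k) ≠ 0 := fun k => by
    obtain ⟨a, b, -⟩ := pp k
    simp only [ne_eq, ENNReal.ofReal_eq_zero, not_le]
    exact ⟨by positivity, a, by linarith⟩
  rw [mu, Measure.ae_sum_iff]
  refine (forall_congr' (q := fun k => q (z k) ∧ q (1 / 2)) fun k => ?_).trans
    ⟨fun h => ⟨(h 0).2, fun k => (h k).1⟩, fun h k => ⟨h.2 k, h.1⟩⟩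
  rw [Measure.ae_ennreal_smul_measure_iff (e k).1, ae_add_measure_iff,
    Measure.ae_ennreal_smul_measure_iff (e k).2.1, Measure.ae_ennreal_smul_measure_iff (e k).2.2,
    ae_dirac_eq, ae_dirac_eq, eventually_pure, eventually_pure]

lemma rho {t : ℝ} (t0 : 0 < t) (K : ℕ) (tK : t * 2 ^ K ≤ 1) :
    ∫⁻ y, ENNReal.ofReal (|y| ^ (1 - t)) ∂mu ≤ ENNReal.ofReal (1 + t / 2 - K * (t / 8)) ∧
      0 ≤ 1 + t / 2 - K * (t / 8) := by
  have t1 : t ≤ 1 := by nlinarith [one_le_pow₀ (M₀ := ℝ) (a := 2) (n := K) (by norm_num)]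
  let g : ℕ → ℝ := fun k => 1 / 2 / 2 ^ k * (p k * |z k| ^ (1 - t) + (1 - p k) * |1 / 2| ^ (1 - t))
  let a : ℕ → ℝ := fun k => if k ∈ range K then t / 8 else 0
  have g0 : ∀ k, 0 ≤ g k := fun k => by
    obtain ⟨a, b, -⟩ := pp k
    have b := sub_nonneg.2 b.le
    simp only [g]; positivity
  have h2 : |(1 / 2 : ℝ)| ^ (1 - t) ≤ 1 / 2 + t / 2 := by
    rw [abs_of_pos (by norm_num), Real.rpow_sub (by norm_num), Real.rpow_one, div_eq_mul_inv (1 / 2 : ℝ),
      ← Real.inv_rpow (by norm_num)]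
    have := rpow_one_add_le_one_add_mul_self (s := 1) (by norm_num) t0.le t1
    norm_num at this ⊢
    linarith
  have le : ∀ k, g k ≤ (1 + t / 2) / 2 / 2 ^ k - a k := fun k => by
    obtain ⟨p0, p1, pz⟩ := pp k
    have z0 : 0 < z k := by linarith [z3 k]
    have e : |z k| ^ (1 - t) = z k * 3 ^ (-(t * 2 ^ k)) := by
      rw [abs_of_pos z0, sub_eq_add_neg, Real.rpow_add z0, Real.rpow_one, z, ← Real.rpow_natCast,
        ← Real.rpow_mul (by norm_num)]
      congr 2; push_cast; ring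
    have u0 : 0 < t * 2 ^ k := by positivity
    have b : 2 ^ k * (4 * a k) ≤ 1 - (3 : ℝ) ^ (-(t * 2 ^ k)) := by
      simp only [a]
      split_ifs with hk
      · have : t * 2 ^ k ≤ 1 := le_trans (by gcongr; norm_num; exact (mem_range.1 hk).le) tK
        have c := rpow_one_add_le_one_add_mul_self (s := -(2 / 3)) (by norm_num) u0.le this
        rw [Real.rpow_neg (by norm_num), ← Real.inv_rpow (by norm_num)]
        norm_num at c ⊢
        nlinarith
      · have := Real.rpow_le_one_of_one_le_of_nonpos (show (1 : ℝ) ≤ 3 by norm_num) (neg_nonpos.2 u0.le)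
        linarith
    have a0 : 0 ≤ a k := by simp only [a]; split_ifs <;> positivity
    have k0 : (0 : ℝ) < 2 ^ k := by positivity
    simp only [g]
    rw [e, div_mul_eq_mul_div, div_le_iff₀ k0, sub_mul _ (a k), div_mul_cancel₀ _ k0.ne']
    generalize (3 : ℝ) ^ (-(t * 2 ^ k)) = v at *
    generalize |(1 / 2 : ℝ)| ^ (1 - t) = h at *
    have q1 : (1 - p k) * h ≤ (1 - p k) * (1 / 2) + t / 2 := by nlinarith
    have q2 : 1 / 2 ≤ p k * z k := by nlinarith
    nlinarith [mul_le_mul q2 b (by positivity) (by positivity)]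
  have sa : HasSum a (K * (t / 8)) := by
    have := hasSum_sum_of_ne_finset_zero (f := a) (s := range K) (L := SummationFilter.unconditional ℕ)
      fun k hk => if_neg hk
    rwa [sum_congr rfl fun k hk => if_pos hk, sum_const, card_range, nsmul_eq_mul] at this
  have s := (hasSum_geometric_two' (1 + t / 2)).sub sa
  have sg : Summable g := .of_nonneg_of_le g0 le s.summable
  have f : ∑' k, g k ≤ _ := hasSum_le le sg.hasSum s
  refine ⟨?_, (tsum_nonneg g0).trans f⟩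
  rw [li (by fun_prop) fun y => by positivity, ← ENNReal.ofReal_tsum_of_nonneg g0 sg]
  exact ENNReal.ofReal_le_ofReal f

lemma pos : ∀ᵐ y ∂mu, 0 < y := aemu.2 ⟨by norm_num, fun k => by linarith [z3 k]⟩

lemma small {L : ℝ → ℝ} (hL : IsLyap mu L) :
    L =o[𝓝[>] 0] fun ε => ε ^ 2 * Real.log (1 / ε) := by
  refine isLittleO_iff.2 fun c hc => ?_
  obtain ⟨N, hN⟩ := exists_nat_gt (192 / c)
  have N0 : (0 : ℝ) < N := lt_trans (by positivity) hN
  have h1 : Tendsto (fun ε : ℝ => Real.log (1 / ε)) (𝓝[>] 0) atTop := by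
    simp_rw [one_div]
    exact Real.tendsto_log_atTop.comp tendsto_inv_nhdsGT_zero
  filter_upwards [h1.eventually_ge_atTop (2 ^ (N + 4)), Ioo_mem_nhdsGT zero_lt_one] with ε hl hε
  obtain ⟨e0, e1⟩ := hε
  have k1 : (1 : ℝ) ≤ 2 ^ (N + 4) := one_le_pow₀ (by norm_num)
  have hd : ∀ l, l = Real.log (1 / ε) → (ε ^ 2) ^ (1 - 1 / (2 * l)) = ε ^ 2 * Real.exp 1 := by
    intro l h
    have : 0 < l := by linarith
    rw [sub_eq_add_neg, Real.rpow_add (by positivity), Real.rpow_one, Real.rpow_def_of_pos (by positivity),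
      Real.log_pow, show Real.log ε = -l by rw [h, one_div, Real.log_inv, neg_neg]]
    congr 2; push_cast; field_simp
  have hd := hd _ rfl
  generalize Real.log (1 / ε) = l at *
  have l0 : 0 < l := by linarith
  set t := 1 / (2 * l) with ht
  have t0 : 0 < t := by positivity
  have tl : t * l = 1 / 2 := by rw [ht]; field_simp
  have t1 : t ≤ 1 / 2 := by nlinarith
  obtain ⟨r1, r0⟩ := rho t0 (N + 4) (by nlinarith)
  obtain ⟨a, b⟩ := up mu pos hL e0 e1.le (s := 1 - t) (by linarith) (by linarith) r0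
    (by push_cast; nlinarith) r1
  rw [Real.norm_of_nonneg a, Real.norm_of_nonneg (by positivity)]
  refine b.trans ?_
  rw [hd, show (1 : ℝ) - (1 + t / 2 - (N + 4 : ℕ) * (t / 8)) = N * t / 8 by push_cast; ring,
    div_le_iff₀ (by positivity), div_le_iff₀ (by linarith)]
  rw [div_lt_iff₀ hc] at hN
  have := Real.exp_one_lt_d9
  have e2 : 0 < ε ^ 2 := by positivity
  calc 2 * (ε ^ 2 * Real.exp 1) ≤ ε ^ 2 * (192 / 16 * (1 / 2)) := by nlinarith
    _ ≤ ε ^ 2 * (N * c / 16 * (1 - t)) := by gcongr; linarith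
    _ = c * (ε ^ 2 * (N / 8 * (t * l))) * (1 - t) := by rw [tl]; ring
    _ = _ := by ring

theorem result : ∃ μ : Measure ℝ, IsProbabilityMeasure μ ∧ (∀ᵐ z ∂μ, 0 < z) ∧
    (∀ c, ¬ ∀ᵐ z ∂μ, z = c) ∧ ¬ Arith μ ∧ Integrable (fun z => z) μ ∧ ∫ z, z ∂μ = 1 ∧
    ∀ L : ℝ → ℝ, IsLyap μ L → (L =o[𝓝[>] 0] fun ε => ε ^ 2 * Real.log (1 / ε)) ∧
      ¬ ∃ C > 0, (fun ε => L ε - C * (ε ^ 2 * Real.log (1 / ε))) =o[𝓝[>] 0]
        fun ε => ε ^ 2 * Real.log (1 / ε) := by
  have m : ∫⁻ y, ENNReal.ofReal |y| ∂mu = 1 := by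
    rw [li (by fun_prop) abs_nonneg, ← geo]
    refine tsum_congr fun k => ?_
    rw [abs_of_pos (by linarith [z3 k]), abs_of_pos (by norm_num), (pp k).2.2]
  have m' : ∫⁻ y, ENNReal.ofReal y ∂mu = 1 :=
    m ▸ lintegral_congr_ae (pos.mono fun y hy => by simp only [abs_of_pos hy])
  have p0 : 0 ≤ᵐ[mu] fun y : ℝ => y := pos.mono fun y hy => hy.le
  refine ⟨mu, inferInstance, pos, fun c h => ?_, ?_, ⟨by fun_prop, ?_⟩, ?_, fun L hL => ⟨small hL, ?_⟩⟩
  · obtain ⟨a, b⟩ := aemu.1 h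
    linarith [z3 0, b 0]
  · rintro ⟨c, c0, h⟩
    obtain ⟨⟨a, ha⟩, b⟩ := aemu.1 h
    obtain ⟨b, hb⟩ := b 0
    rw [one_div, Real.log_inv] at ha
    rw [show z 0 = 3 by simp [z]] at hb
    have l2 := Real.log_pos (show (1 : ℝ) < 2 by norm_num)
    have l3 := Real.log_pos (show (1 : ℝ) < 3 by norm_num)
    obtain ⟨m, hm⟩ := Int.eq_ofNat_of_zero_le (a := -a) (by
      have : (0 : ℝ) ≤ -a := by nlinarith
      exact_mod_cast this)
    obtain ⟨n, rfl⟩ := Int.eq_ofNat_of_zero_le (a := b) (by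
      have : (0 : ℝ) ≤ b := by nlinarith
      exact_mod_cast this)
    have hm : (a : ℝ) = -m := by
      have : ((-a : ℤ) : ℝ) = m := by exact_mod_cast hm
      push_cast at this; linarith
    push_cast at hb
    have n0 : n ≠ 0 := by
      rintro rfl
      simp only [Nat.cast_zero] at hb
      nlinarith
    have e : Real.log (2 ^ n) = Real.log (3 ^ m) := by
      rw [Real.log_pow, Real.log_pow]
      linear_combination (-Real.log 2) * hb - Real.log 3 * ha - Real.log 3 * hm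
    have e : (2 : ℕ) ^ n = 3 ^ m := by
      exact_mod_cast Real.log_injOn_pos (by simp) (by simp) e
    have := Nat.prime_two.dvd_of_dvd_pow (e ▸ dvd_pow_self 2 n0)
    omega
  · rw [hasFiniteIntegral_iff_ofReal p0, m']; simp
  · rw [integral_eq_lintegral_of_nonneg_ae p0 (by fun_prop), m']; simp
  · rintro ⟨C, C0, h⟩
    have := isLittleO_iff.1 ((small hL).sub h) (half_pos C0)
    obtain ⟨ε, h1, e0, e1⟩ := (this.and (Ioo_mem_nhdsGT zero_lt_one)).exists
    have := Real.log_pos (one_lt_one_div e0 e1)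
    have e : 0 < ε ^ 2 * Real.log (1 / ε) := by positivity
    rw [sub_sub_cancel, Real.norm_of_nonneg (by positivity), Real.norm_of_nonneg e.le] at h1
    nlinarith

end Pool.Agent.Results.MP_132c94_pr.LogMoment
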